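import Mathlib
import Pool.Agent.Work.MP_501976_gc.Assembly

/-!
# Covers of arbitrary projective varieties with few parameters are swept out by elliptic curves

The predicate `MP501976.SweptOutByEllipticCurves` (file
`Pool/Agent/Work/MP_501976_ag_helper95/Main.lean`) says, for the function field `L₀` of a variety
`X` over `ℂ`: there are a finitely generated field `K` over `ℂ`, an elliptic curve `E` over `K`
and an embedding over `ℂ` of `L₀` into the function field of `E` whose image does not lie in `K`.
Geometrically: a family of elliptic curves over a base with function field `K`, together with a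
dominant rational map from its total space to `X` that is not constant on the general member.

The other definitions are in `Pool/Agent/Work/MP_501976_gc/Interface.lean`:
* `GC1.IsCurve H x e f`: the polynomials `f i` in `F[t]` have degree at most `e`, `f i (0) = x i`,
  and all `H j` vanish on `f`;
* `GC1.Triv x f`: the curve `f` is constant in projective space, `x 0 * f i = x i * f 0`;
* `GC1.NoCurves H x r`: over every extension field all curves of degree at most `r` through `x`
  are trivial;
* `GC1.coefs f`: the set of the coefficients of the `f i`;
* `GC1.Indep L S c`: the set `S` contains `c` elements algebraically independent over `L`.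
-/

universe u v

open MvPolynomial MP501976

namespace Pool.Agent.Results.MP_501976_ag.GeneralCovers

/-- Let `k` be a finitely generated field over `ℂ` and `Y` an irreducible component of the
subscheme `G j = 0` of the projective space of dimension `N` over `k` on which the coordinate
`x 0` is not zero.  Suppose that there are no rational curves of degree at most `r` through the
generic point of `Y`, and let `f` be one of degree `r + 1` (over some extension field), `c'` of
whose coefficients are algebraically independent over the function field of the cone; if `Y` is
smooth and `f` a general member of a covering family of curves `C` of minimal degree, then by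
deformation theory `c' = - K_Y · C`.  Let `X → Y` be an abelian cover, given by roots of products
of homogeneous polynomials `D b`, the ramification indices over `D b` dividing `e b`.  Along `f`
let `D b` be the product of a polynomial `S b` of degree at most `e b * m b` and an `e b`-th
power.  Suppose that `∑ (e b - 1) * m b ≤ c'` (for smooth `Y` and `e b * m b` the degree on `C` of
the branch divisor this means that the degree of `K_X` on the curve is not positive), and that
`e 0` is divisible by `3` or `4` and `m 0 ≥ 1`, or even and `m 0 ≥ 2`.  Then `X` is swept out by
elliptic curves, and so is every variety dominated by `X` with generically finite fibres.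

In the statement `L` is the function field of the cone over `X`, and `L₀` is a field below `L`
over which the quotients `x i / x 0` are algebraic; for example the function field of `X`. -/
theorem result
    -- the base field, that is the function field of a base variety over `ℂ`
    {k : Type v} [Field k] [Algebra ℂ k] [Algebra.EssFiniteType ℂ k]
    -- the function field of the cone over `X`
    {L : Type u} [Field L] [Algebra ℂ L] [Algebra k L] [IsScalarTower ℂ k L]
    -- the cone over `Y` is a component of `G = 0`, and `x` is its generic point
    {N c : ℕ} (G : Fin c → MvPolynomial (Fin (N + 1)) k) (d : Fin c → ℕ)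
    (hG : ∀ j, (G j).IsHomogeneous (d j)) (x : Fin (N + 1) → L) (hx : x 0 ≠ 0)
    (hY : RingHom.ker (aeval x : MvPolynomial (Fin (N + 1)) k →ₐ[k] L) ∈
      (Ideal.span (Set.range G)).minimalPrimes)
    -- there are no rational curves of degree at most `r` through `x`
    (r : ℕ) (hr : GC1.NoCurves (fun j => map (algebraMap k L) (G j)) x r)
    -- `f` is one of degree at most `r + 1`, with `c'` algebraically independent coefficients
    {F : Type u} [Field F] [Algebra L F] (f : Fin (N + 1) → Polynomial F)
    (hf : GC1.IsCurve (fun j => map (algebraMap k L) (G j)) x (r + 1) f)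
    (hf' : ¬ GC1.Triv x f) (c' : ℕ) (hc' : GC1.Indep L (GC1.coefs f) c')
    -- the branch polynomials, and their form along `f`
    {s : ℕ} (D : Fin (s + 1) → MvPolynomial (Fin (N + 1)) k) (p : Fin (s + 1) → ℕ)
    (hDp : ∀ b, (D b).IsHomogeneous (p b)) (hD : ∀ b, aeval x (D b) ≠ 0)
    (e m δ n : Fin (s + 1) → ℕ) (he : ∀ b, 0 < e b) (hδ : ∀ b, δ b ≤ e b * m b)
    (hp : ∀ b, p b * (r + 1) = δ b + e b * n b)
    (S β : Fin (s + 1) → Polynomial F) (hS : ∀ b, (S b).natDegree ≤ δ b)
    (hβ : ∀ b, (β b).natDegree ≤ n b)
    (hSβ : ∀ b, aeval f (map (algebraMap L F) (map (algebraMap k L) (D b))) =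
      S b * β b ^ e b)
    -- the cover `X → Y`
    {t : ℕ} (w : Fin t → L) (q : Fin t → ℕ) (hq : ∀ a, 0 < q a) (ε : Fin t → Fin (s + 1) → ℕ)
    (hw : ∀ a, w a ^ q a = ∏ b, aeval x (D b) ^ ε a b) (hqe : ∀ a b, q a ∣ e b * ε a b)
    (hgen : IntermediateField.adjoin k (Set.range x ∪ Set.range w) = ⊤)
    -- the numerical hypotheses
    (htype : (3 ∣ e 0 ∧ 1 ≤ m 0) ∨ (4 ∣ e 0 ∧ 1 ≤ m 0) ∨ (2 ∣ e 0 ∧ 2 ≤ m 0))
    (hK : ∑ b, (e b - 1) * m b ≤ c')
    -- the field which is shown to be swept out
    {L₀ : Type u} [Field L₀] [Algebra ℂ L₀] [Algebra L₀ L] [IsScalarTower ℂ L₀ L]
    (hL₀ : ∀ i, IsAlgebraic L₀ (x i / x 0)) :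
    SweptOutByEllipticCurves L₀ :=
  GC1.final k L N c G d hG x hx hY r hr F f hf hf' c' hc' s D p hDp hD e m δ n he hδ hp S β hS
    hβ hSβ t w q hq ε hw hqe hgen htype hK L₀ hL₀

end Pool.Agent.Results.MP_501976_ag.GeneralCovers
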