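import Mathlib
import Pool.Agent.Work.MP_501976_ix.Assembly

/-!
# Double covers of index one complete intersections are swept out by elliptic curves

The predicate `MP501976.SweptOutByEllipticCurves` (file
`Pool/Agent/Work/MP_501976_ag_helper95/Main.lean`) says, for the function field `L₀` of a variety
`X` over `ℂ`: there are a finitely generated field `K` over `ℂ`, an elliptic curve `E` over `K`
and an embedding over `ℂ` of `L₀` into the function field of `E` whose image does not lie in `K`.
Geometrically: a family of elliptic curves over a base with function field `K`, together with a
dominant rational map from its total space to `X` that is not constant on the general member.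
-/

universe u v

open MvPolynomial MP501976

namespace Pool.Agent.Results.MP_501976_ag.IndexOneCovers

/-- Let `k` be a finitely generated field over `ℂ` and `Y` an irreducible component of the
subscheme `G j = 0` of a weighted projective space over `k` with weights `wt i`, where
`wt 0 = wt 1 = wt 2 = 1` and the coordinate `x 0` is not zero on `Y`.  The coordinates other than
`x 0` are divided into groups `π i = j`, one for each equation, `x 1` and `x 2` in the same group,
and `G j` is homogeneous of degree the sum of the weights of its group; in particular the sum of
all weights minus the sum of all degrees is one: `Y` has index one.  Let `D` be a polynomial of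
degree at most two, not zero on `Y`, and `X → Y` the double cover `w ^ 2 = D`; its canonical class
has degree zero (if `D` is homogeneous of degree two).  Then `X` is swept out by elliptic curves,
and so is every variety dominated by `X` with generically finite fibres.

In the statement `L` is the function field of the cone over `X`, and `L₀` is a field below `L`
over which the quotients `x i / x 0 ^ wt i` of weight zero are algebraic; for example the
function field of `X`. -/
theorem result
    -- the base field, that is the function field of a base variety over `ℂ`
    {k : Type v} [Field k] [Algebra ℂ k] [Algebra.EssFiniteType ℂ k]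
    -- the function field of the cone over `X`
    {L : Type u} [Field L] [Algebra ℂ L] [Algebra k L] [IsScalarTower ℂ k L]
    -- the weights, the coordinates, the groups
    {n c : ℕ} (wt : Fin (n + 3) → ℕ) (hwt0 : wt 0 = 1) (hwt1 : wt 1 = 1) (hwt2 : wt 2 = 1)
    (x : Fin (n + 3) → L) (hx : x 0 ≠ 0)
    (π : Fin (n + 3) → Fin c) (hπ : π 1 = π 2)
    -- the cone over `Y` is a component of `G = 0`
    (G : Fin c → MvPolynomial (Fin (n + 3)) k)
    (hG : ∀ j, (G j).IsWeightedHomogeneous wt
      (∑ i ∈ Finset.univ.filter (fun i => i ≠ 0 ∧ π i = j), wt i))
    (hY : RingHom.ker (aeval x : MvPolynomial (Fin (n + 3)) k →ₐ[k] L) ∈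
      (Ideal.span (Set.range G)).minimalPrimes)
    -- the double cover
    (D : MvPolynomial (Fin (n + 3)) k) (hdeg : weightedTotalDegree wt D ≤ 2)
    (hD : aeval x D ≠ 0) (w : L) (hw : w ^ 2 = aeval x D)
    (hgen : IntermediateField.adjoin k (Set.range x ∪ {w}) = ⊤)
    -- the field which is shown to be swept out
    {L₀ : Type u} [Field L₀] [Algebra ℂ L₀] [Algebra L₀ L] [IsScalarTower ℂ L₀ L]
    (hL₀ : ∀ i, IsAlgebraic L₀ (x i / x 0 ^ wt i)) :
    SweptOutByEllipticCurves L₀ :=
  IX1.final k L n c wt hwt0 hwt1 hwt2 π hπ G hG x hx hY D hdeg hD w hw hgen L₀ hL₀

end Pool.Agent.Results.MP_501976_ag.IndexOneCovers
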