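import Mathlib
import Pool.Agent.Work.MP_501976_ag_helper95.Cone

/-!
# Abelian covers of Fano complete intersections are swept out by elliptic curves

The predicate `MP501976.SweptOutByEllipticCurves` (file
`Pool/Agent/Work/MP_501976_ag_helper95/Main.lean`) says, for the function field `L₀` of a variety
`X` over `ℂ`: there are a finitely generated field `K` over `ℂ`, an elliptic curve `E` over `K`
and an embedding over `ℂ` of `L₀` into the function field of `E` whose image does not lie in `K`.
Geometrically: a family of elliptic curves over a base with function field `K`, together with a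
dominant rational map from its total space to `X` that is not constant on the general member.
-/

universe u v

open MvPolynomial MP501976

namespace Pool.Agent.Results.MP_501976_ag.KummerCovers

/-- Let `k` be a finitely generated field over `ℂ` and `Y` an irreducible component of the
subscheme `G j = 0` of a weighted projective space over `k` with weights `wt i`, which have
greatest common divisor one.  Let `X → Y` be an abelian cover, defined by roots `w a` of products
of polynomials `D b`, with ramification order dividing `e b` along `D b = 0`.  Suppose
`deg D b ≤ e b * m b` and that `-∑ wt i + ∑ deg G j + ∑ (e b - 1) * m b ≤ 0`; in the homogeneous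
case with `deg D b = e b * m b` this number is the degree of the canonical class of `X`.  Suppose
finally that `e 0` is divisible by three or four, or is even and `m 0 ≥ 2`.  Then `X` is swept
out by elliptic curves, and so is every variety dominated by `X` with generically finite fibres.

In the statement `L` is the function field of the cone over `X`, and `L₀` is a field below `L`
over which the quotients `x i ^ wt 0 / x 0 ^ wt i` of weight zero are algebraic; for example the
function field of `X`. -/
theorem result
    -- the base field, that is the function field of a base variety over `ℂ`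
    {k : Type v} [Field k] [Algebra ℂ k] [Algebra.EssFiniteType ℂ k]
    -- the function field of the cone over `X`
    {L : Type u} [Field L] [Algebra ℂ L] [Algebra k L] [IsScalarTower ℂ k L]
    -- the weights and the coordinates
    {N : ℕ} (wt : Fin (N + 1) → ℕ) (hwt : 0 < wt 0) (hgcd : Finset.univ.gcd wt = 1)
    (x : Fin (N + 1) → L) (hx : ∀ i, x i ≠ 0)
    -- the cone over `Y` is a component of `G = 0`
    {c : ℕ} (G : Fin c → MvPolynomial (Fin (N + 1)) k)
    (hY : RingHom.ker (aeval x : MvPolynomial (Fin (N + 1)) k →ₐ[k] L) ∈
      (Ideal.span (Set.range G)).minimalPrimes)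
    -- the branch polynomials, their orders and degrees
    {s : ℕ} (D : Fin (s + 1) → MvPolynomial (Fin (N + 1)) k) (hD : ∀ b, aeval x (D b) ≠ 0)
    (e m : Fin (s + 1) → ℕ) (he : ∀ b, 0 < e b)
    (hdeg : ∀ b, weightedTotalDegree wt (D b) ≤ e b * m b)
    -- the generators of the cover
    {r : ℕ} (w : Fin r → L) (q : Fin r → ℕ) (hq : ∀ a, 0 < q a) (n : Fin r → Fin (s + 1) → ℕ)
    (hw : ∀ a, w a ^ q a = ∏ b, aeval x (D b) ^ n a b) (hn : ∀ a b, q a ∣ e b * n a b)
    (hgen : IntermediateField.adjoin k (Set.range x ∪ Set.range w) = ⊤)
    -- the condition on the first branch polynomial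
    (htype : (3 ∣ e 0 ∧ 1 ≤ m 0) ∨ (4 ∣ e 0 ∧ 1 ≤ m 0) ∨ (2 ∣ e 0 ∧ 2 ≤ m 0))
    -- the canonical class is not positive
    (hK : ∑ j, weightedTotalDegree wt (G j) + ∑ b, (e b - 1) * m b ≤ ∑ i, wt i)
    -- the field which is shown to be swept out
    {L₀ : Type u} [Field L₀] [Algebra ℂ L₀] [Algebra L₀ L] [IsScalarTower ℂ L₀ L]
    (hL₀ : ∀ i, IsAlgebraic L₀ (x i ^ wt 0 / x 0 ^ wt i)) :
    SweptOutByEllipticCurves L₀ :=
  kummer_cones wt hwt hgcd x hx G hY D hD e m he hdeg w q hq n hw hn hgen htype hK hL₀

end Pool.Agent.Results.MP_501976_ag.KummerCovers
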