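import Mathlib
import Pool.Agent.Work.MP_501976_tw.All

/-!
# Anticanonical hypersurfaces of lattice width two are swept out by elliptic curves

The predicate `MP501976.SweptOutByEllipticCurves` (file
`Pool/Agent/Work/MP_501976_ag_helper95/Main.lean`) says, for the function field `L₀` of a variety
`X` over `ℂ`: there are a finitely generated field `K` over `ℂ`, an elliptic curve `E` over `K`
and an embedding over `ℂ` of `L₀` into the function field of `E` whose image does not lie in `K`.
Geometrically: a family of elliptic curves over a base with function field `K`, together with a
dominant rational map from its total space to `X` that is not constant on the general member.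
-/

universe u v

open MP501976

namespace Pool.Agent.Results.MP_501976_ag.WidthTwo

/-- Let `k` be a finitely generated field over `ℂ` and `X` an irreducible hypersurface of the torus
`𝔾ₘ ^ (d + 1)` over `k` which is contained in the zero set of a nonzero Laurent polynomial `f`.
Let the integer vectors `u j` satisfy a relation `∑ a j * u j = 0` with positive `a j`; they are for
instance the generators of the rays of a complete fan.  Suppose `⟨m, u j⟩ ≥ -1` for all exponents
`m` of `f`: so `f` is a section of the anticanonical sheaf of the toric variety of the fan.
Let `e` be a nonzero integer vector such that not all `u j` are proportional to `e` and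
`|⟨m, e⟩| ≤ 1` for all exponents `m` of `f`; for a reflexive Newton polytope this says that it has lattice width two in the
direction `e`.  Then `X` is swept out by elliptic curves, and so is every variety dominated by `X` with
generically finite fibres.  The hypersurface is not assumed general or smooth, and neither are the
coefficients of `f`; the Newton polytope of `f` can be smaller than the anticanonical polytope.

In the statement `L` is the function field of `X`, the `x i` are the coordinates, and `L₀` is a field
below `L` over which the coordinates are algebraic; for example `L` itself. -/
theorem result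
    -- the base field, that is the function field of a base variety over `ℂ`
    {k : Type v} [Field k] [Algebra ℂ k] [Algebra.EssFiniteType ℂ k]
    -- the function field of `X`
    {L : Type u} [Field L] [Algebra ℂ L] [Algebra k L] [IsScalarTower ℂ k L]
    -- the coordinates; the dimension of `X` is at least `d`
    {d : ℕ} (x : Fin (d + 1) → L) (hx : ∀ i, x i ≠ 0)
    (hgen : IntermediateField.adjoin k (Set.range x) = ⊤) (hdim : (d : Cardinal) ≤ Algebra.trdeg k L)
    -- the equation: the coefficient of the monomial with exponents `m` is `f m`
    (f : (Fin (d + 1) → ℤ) →₀ k) (hf : f ≠ 0)
    (hfx : f.sum (fun m c => algebraMap k L c * ∏ i, x i ^ m i) = 0)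
    -- the rays of the fan, with a positive relation
    {r : ℕ} (ray : Fin r → Fin (d + 1) → ℤ) (a : Fin r → ℕ) (ha : ∀ j, 0 < a j)
    (hrel : ∀ i, ∑ j, (a j : ℤ) * ray j i = 0)
    -- the equation is anticanonical
    (hanti : ∀ m ∈ f.support, ∀ j, -1 ≤ ∑ i, m i * ray j i)
    -- the direction in which the width is at most two
    (e : Fin (d + 1) → ℤ) (he : ∃ j i i', ray j i * e i' ≠ ray j i' * e i)
    (hwidth : ∀ m ∈ f.support, |∑ i, m i * e i| ≤ 1)
    -- the field which is shown to be swept out
    {L₀ : Type u} [Field L₀] [Algebra ℂ L₀] [Algebra L₀ L] [IsScalarTower ℂ L₀ L]
    (hL₀ : ∀ i, IsAlgebraic L₀ (x i)) :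
    SweptOutByEllipticCurves L₀ :=
  Pool.TW.TW k L d x hx hgen hdim f hf hfx r ray a ha hrel e he hanti hwidth L₀ hL₀

end Pool.Agent.Results.MP_501976_ag.WidthTwo
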